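import Pool.Agent.H65.CF.T6
import Pool.Agent.H65.AD.Sml

/-!
Row FMF of the board cfh_modules (`MP_347b49_nt`): the first moment in mean square.
-/

set_option autoImplicit false

open MeasureTheory Set Filter NumberField
open scoped Real nonZeroDivisors

namespace Pool.Agent.H55.CFH

open Pool.Agent.H31.CN Pool.Agent.H65.AD Pool.Agent.H91.CF Pool.Agent.H65.CF

theorem mem_fmD {Y : ℝ} {D : ℕ} (h : D ∈ fmD Y) :
    (D % 4 = 0 ∨ D % 4 = 3) ∧ (D : ℝ) ≤ Y ∧ 0 < D := by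
  classical
  unfold fmD at h
  rw [Finset.mem_filter, Finset.mem_Icc] at h
  obtain ⟨⟨h1, h2⟩, h3, h4⟩ := h
  refine ⟨?_, ?_, by omega⟩
  · rcases h4 with h4 | h4
    · exact Or.inr h4.1
    · left
      exact Nat.mod_eq_zero_of_dvd h4.1
  · have h5 : 0 < ⌊Y⌋₊ := by omega
    have h6 : 0 ≤ Y := by
      by_contra h7
      push Not at h7
      rw [Nat.floor_of_nonpos h7.le] at h5
      exact lt_irrefl _ h5
    exact le_trans (by exact_mod_cast h2) (Nat.floor_le h6)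

theorem piD_mem (hNPF : T_NPF) {f D : ℕ} (hf : 0 < f) (hD : D % 4 = 0 ∨ D % 4 = 3) :
    0 ≤ piD f D ∧ piD f D ≤ 1 := by
  have h : ∀ p ∈ f.primeFactors, 0 ≤ pit f p (ch p D) ∧ pit f p (ch p D) ≤ 1 := by
    intro p hp
    have hpf := Nat.dvd_of_mem_primeFactors hp
    have h1 := (hNPF f D p hf hD (Nat.prime_of_mem_primeFactors hp) hpf).2.1
    unfold npD at h1
    unfold pit
    rw [if_pos hpf]
    have h2 : (1 : ℝ) ≤ (npt f p (ch p D) : ℝ) := by exact_mod_cast h1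
    have h3 : 1 / (npt f p (ch p D) : ℝ) ≤ 1 := by
      rw [div_le_one (by linarith)]
      exact h2
    have h4 : 0 ≤ 1 / (npt f p (ch p D) : ℝ) := by positivity
    constructor <;> linarith
  unfold piD
  exact ⟨Finset.prod_nonneg fun p hp => (h p hp).1,
    Finset.prod_le_one (fun p hp => (h p hp).1) fun p hp => (h p hp).2⟩

/-- FMF -/
theorem pf_FMF (hZXF : T_ZXF) (hEXD : T_EXD) (hZVA : T_ZVA) (hNPF : T_NPF) : T_FMf := by
  intro P θ η ε f hP hθ hθ4 hη hε hf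
  obtain ⟨R₁, hR₁⟩ := hZVA P θ η ε hP hθ hθ4 hη hε
  refine ⟨max R₁ (max f 2), fun R hR => ?_⟩
  have hRR : R₁ ≤ R := le_trans (le_max_left _ _) hR
  have hRf : f ≤ R := le_trans (le_trans (le_max_left _ _) (le_max_right _ _)) hR
  have hR2 : 2 ≤ R := le_trans (le_trans (le_max_right _ _) (le_max_right _ _)) hR
  have h2N : 2 ∣ primorial R := two_le_primorial hR2
  obtain ⟨CE, Y₁, hCE, hX⟩ := hZXF P (primorial R) f θ η (primorial_pos R) h2N
    (_root_.squarefree_primorial R) hf (fun p hp hpf => by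
      unfold primorial
      refine Finset.dvd_prod_of_mem (fun p => p) ?_
      rw [Finset.mem_filter, Finset.mem_range]
      exact ⟨lt_of_le_of_lt (le_trans (Nat.le_of_dvd hf hpf) hRf) (Nat.lt_succ_self R), hp⟩)
    hθ hθ4 hη
  obtain ⟨Y₂, hV⟩ := hR₁ R hRR CE hCE
  refine ⟨max Y₁ Y₂, fun Y hY => ?_⟩
  refine hV Y ((le_max_right _ _).trans hY) _ (fun D => ZDn P (Y ^ θ) (primorial R) f D)
    (fun D => piD f D) fun D hD => ?_
  rw [Finset.mem_filter] at hD
  obtain ⟨hD1, hD2⟩ := hD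
  obtain ⟨h4, hDY, _⟩ := mem_fmD hD1
  have hpi := piD_mem hNPF hf h4
  refine ⟨hD2, hDY, hpi.1, hpi.2, ?_⟩
  have h1 := hX Y ((le_max_left _ _).trans hY) D h4 hD2 hDY
  have h2 := hEXD P (Y ^ θ) (primorial R) D h2N h4
  rw [h2.1, h2.2] at h1
  exact h1

end Pool.Agent.H55.CFH
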