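import Pool.Agent.H65.CF.T6

/-!
Row ZXF of the board cfh_modules (`MP_347b49_nt`): the first moment in terms of the quadratic
characters.
-/

set_option autoImplicit false

open MeasureTheory Set Filter NumberField
open scoped Real nonZeroDivisors

namespace Pool.Agent.H55.CFH

open Pool.Agent.H31.CN Pool.Agent.H65.AD Pool.Agent.H91.CF Pool.Agent.H65.CF

theorem primeFactors_rd (f : ℕ) : (rd f).primeFactors = f.primeFactors := by
  unfold rd
  exact Nat.primeFactors_prod fun p hp => Nat.prime_of_mem_primeFactors hp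

theorem rd_pos (f : ℕ) : 0 < rd f := by
  unfold rd
  exact Finset.prod_pos fun p hp => (Nat.prime_of_mem_primeFactors hp).pos

theorem rd_dvd {N f : ℕ} (hfN : ∀ p, p.Prime → p ∣ f → p ∣ N) : rd f ∣ N := by
  unfold rd
  exact Finset.prod_primes_dvd N (fun p hp => (Nat.prime_of_mem_primeFactors hp).prime)
    fun p hp => hfN p (Nat.prime_of_mem_primeFactors hp) (Nat.dvd_of_mem_primeFactors hp)

/-- the factors of `N` -/
theorem prod_split {N f : ℕ} (hN : Squarefree N) (hfN : ∀ p, p.Prime → p ∣ f → p ∣ N)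
    (g : ℕ → ℝ) : (∏ p ∈ f.primeFactors, g p) * ∏ p ∈ (nf N f).primeFactors, g p =
      ∏ p ∈ N.primeFactors, g p := by
  have h1 : N = rd f * nf N f := (Nat.mul_div_cancel' (rd_dvd hfN)).symm
  have h2 : Nat.Coprime (rd f) (nf N f) := by
    rw [h1] at hN
    exact (Nat.squarefree_mul_iff.mp hN).1
  have h3 : N.primeFactors = f.primeFactors ∪ (nf N f).primeFactors := by
    conv_lhs => rw [h1]
    rw [h2.primeFactors_mul, primeFactors_rd]
  have h4 : Disjoint f.primeFactors (nf N f).primeFactors := by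
    rw [← primeFactors_rd f]
    exact h2.disjoint_primeFactors
  rw [h3, Finset.prod_union h4]

theorem abs_cfd_le (hNPF : T_NPF) {f D d : ℕ} (hf : 0 < f) (hD : D % 4 = 0 ∨ D % 4 = 3)
    (hd : d ∈ (rd f).divisors) : |cfd f d D| ≤ 1 := by
  have h0 : ∀ p, p.Prime → p ∣ rd f → 0 ≤ 1 / (npD f p D : ℝ) ∧ 1 / (npD f p D : ℝ) ≤ 1 := by
    intro p hp hpr
    have hpf : p ∈ f.primeFactors := by
      rw [← primeFactors_rd f]
      exact Nat.mem_primeFactors.mpr ⟨hp, hpr, (rd_pos f).ne'⟩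
    have h1 := (hNPF f D p hf hD hp (Nat.dvd_of_mem_primeFactors hpf)).2.1
    have h2 : (1 : ℝ) ≤ (npD f p D : ℝ) := by exact_mod_cast h1
    exact ⟨by positivity, by rw [div_le_one (by linarith)]; exact h2⟩
  have hdd := Nat.dvd_of_mem_divisors hd
  unfold cfd
  rw [abs_mul, Finset.abs_prod, Finset.abs_prod]
  refine mul_le_one₀ (Finset.prod_le_one (fun p _ => abs_nonneg _) fun p hp => ?_)
    (Finset.prod_nonneg fun p _ => abs_nonneg _)
    (Finset.prod_le_one (fun p _ => abs_nonneg _) fun p hp => ?_)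
  · have h1 := h0 p (Nat.prime_of_mem_primeFactors hp)
      ((Nat.dvd_of_mem_primeFactors hp).trans hdd)
    rw [abs_neg, abs_of_nonneg h1.1]
    exact h1.2
  · have h1 := h0 p (Nat.prime_of_mem_primeFactors hp)
      ((Nat.dvd_of_mem_primeFactors hp).trans (Nat.div_dvd_of_dvd hdd))
    rw [abs_of_nonneg (by linarith [h1.2])]
    linarith [h1.1]

/-- ZXF -/
theorem pf_ZXF (hZKE : T_ZKE) (hCSJ : T_CSJ) (hZCQ : T_ZCQ) (hNPF : T_NPF) : T_ZXF := by
  classical
  intro P N f θ η hN1 h2N hN hf hfN hθ hθ4 hη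
  obtain ⟨C₁, Y₁, hC₁, h⟩ := hZCQ P N f θ η hN1 h2N hN hf hfN hθ hθ4 hη
  set K : ℝ := ∑ d ∈ (rd f).divisors, (d : ℝ) with hK
  have hK1 : 1 ≤ K := by
    have h1 : (((1 : ℕ) : ℕ) : ℝ) ≤ K := by
      refine Finset.single_le_sum (f := fun d : ℕ => (d : ℝ)) (fun d _ => Nat.cast_nonneg d) ?_
      exact Nat.one_mem_divisors.mpr (rd_pos f).ne'
    simpa using h1
  refine ⟨K * C₁, max Y₁ K, by positivity, fun Y hY D hD hD1 hD2 => ?_⟩
  have hYY : Y₁ ≤ Y := (le_max_left _ _).trans hY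
  have hYK : K ≤ Y := (le_max_right _ _).trans hY
  have hY0 : 0 < Y := by linarith
  have hDpos : 0 < D := by
    have h1 : (0 : ℝ) < D := lt_of_lt_of_le (by positivity) hD1
    exact_mod_cast h1
  set E := E0 P (Y ^ θ) N D with hE
  set MT := Real.log (Real.sqrt D) * E - E1 P (Y ^ θ) N D with hMT
  set A : ℝ := ∏ p ∈ (nf N f).primeFactors, (1 - 1 / (p : ℝ)) with hA
  have h1 := fun d hd j => h Y hYY D hD hD1 hD2 d hd j
  have hz : ZDn P (Y ^ θ) N f D = ∑ d ∈ (rd f).divisors, cfd f d D * ∑ j ∈ ju f d D,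
      Zc (SDf (Y ^ θ) N f) (CDf P (Y ^ θ) N f D) (Qs f d j D) := by
    unfold ZDn
    refine hZKE f D hf hDpos hD _ _ fun m hm => ?_
    unfold SDf at hm
    rw [Finset.mem_filter] at hm
    exact ⟨hm.2.1, hm.2.2.2⟩
  have hmain : piD f D * ((∏ p ∈ N.primeFactors, (1 - 1 / (p : ℝ))) * MT) =
      ∑ d ∈ (rd f).divisors, cfd f d D * ∑ _j ∈ ju f d D, 1 / (d : ℝ) * (A * MT) := by
    have e : ∀ d ∈ (rd f).divisors, cfd f d D * ∑ _j ∈ ju f d D, 1 / (d : ℝ) * (A * MT) =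
        cfd f d D * (((ju f d D).card : ℝ) / d) * (A * MT) := by
      intro d _
      rw [Finset.sum_const, nsmul_eq_mul]
      ring
    rw [Finset.sum_congr rfl e, ← Finset.sum_mul, hCSJ f D hf hD, ← prod_split hN hfN]
    ring
  rw [hz, hmain, ← Finset.sum_sub_distrib]
  have hYe : K * Y ^ (-2 : ℝ) ≤ Y ^ (-1 : ℝ) := by
    have e : Y ^ (-1 : ℝ) = Y * Y ^ (-2 : ℝ) := by
      conv_rhs => rw [← Real.rpow_one Y]
      rw [← Real.rpow_mul hY0.le, ← Real.rpow_add hY0]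
      norm_num
    rw [e]
    exact mul_le_mul_of_nonneg_right hYK (by positivity)
  calc |∑ d ∈ (rd f).divisors, (cfd f d D * ∑ j ∈ ju f d D,
          Zc (SDf (Y ^ θ) N f) (CDf P (Y ^ θ) N f D) (Qs f d j D) -
          cfd f d D * ∑ _j ∈ ju f d D, 1 / (d : ℝ) * (A * MT))|
      ≤ ∑ d ∈ (rd f).divisors, |cfd f d D * ∑ j ∈ ju f d D,
          Zc (SDf (Y ^ θ) N f) (CDf P (Y ^ θ) N f D) (Qs f d j D) -
          cfd f d D * ∑ _j ∈ ju f d D, 1 / (d : ℝ) * (A * MT)| := Finset.abs_sum_le_sum_abs _ _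
    _ ≤ ∑ d ∈ (rd f).divisors, (d : ℝ) * (C₁ * |E| + Y ^ (-2 : ℝ)) := by
        refine Finset.sum_le_sum fun d hd => ?_
        rw [← mul_sub, ← Finset.sum_sub_distrib, abs_mul]
        have hb : |∑ j ∈ ju f d D, (Zc (SDf (Y ^ θ) N f) (CDf P (Y ^ θ) N f D) (Qs f d j D) -
            1 / (d : ℝ) * (A * MT))| ≤ (d : ℝ) * (C₁ * |E| + Y ^ (-2 : ℝ)) := by
          have hn : 0 ≤ C₁ * |E| + Y ^ (-2 : ℝ) := by positivity
          have hc : ((ju f d D).card : ℝ) ≤ d := by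
            have h2 : (ju f d D).card ≤ d := by
              unfold ju
              refine (Finset.card_filter_le _ _).trans ?_
              rw [Finset.card_range]
            exact_mod_cast h2
          calc _ ≤ ∑ j ∈ ju f d D, |Zc (SDf (Y ^ θ) N f) (CDf P (Y ^ θ) N f D) (Qs f d j D) -
                1 / (d : ℝ) * (A * MT)| := Finset.abs_sum_le_sum_abs _ _
            _ ≤ ∑ _j ∈ ju f d D, (C₁ * |E| + Y ^ (-2 : ℝ)) :=
                Finset.sum_le_sum fun j _ => h1 d hd j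
            _ = ((ju f d D).card : ℝ) * (C₁ * |E| + Y ^ (-2 : ℝ)) := by
                rw [Finset.sum_const, nsmul_eq_mul]
            _ ≤ _ := mul_le_mul_of_nonneg_right hc hn
        calc _ ≤ 1 * ((d : ℝ) * (C₁ * |E| + Y ^ (-2 : ℝ))) :=
              mul_le_mul (abs_cfd_le hNPF hf hD hd) hb (abs_nonneg _) zero_le_one
          _ = _ := one_mul _
    _ = K * C₁ * |E| + K * Y ^ (-2 : ℝ) := by
        rw [← Finset.sum_mul, ← hK]
        ring
    _ ≤ K * C₁ * |E| + Y ^ (-1 : ℝ) := by linarith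

end Pool.Agent.H55.CFH
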